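import Pool.Agent.Helper55.AR.Defs

/-! Covering families bound cardinal powers. -/

set_option autoImplicit false

open Cardinal Ordinal Set Filter Helper23.Pcf Helper55.CP

universe u

namespace Helper55.AR

/-- F -/
theorem power_le_of_cover {A lams μ τ : Cardinal.{u}} (hτ : ℵ₀ ≤ τ)
    (F : Set (Set Ordinal.{u})) (hF : #F ≤ Cardinal.lift.{u+1} lams)
    (hsm : ∀ Z ∈ F, #Z ≤ Cardinal.lift.{u+1} μ)
    (hcov : ∀ X : Set Ordinal.{u}, X ⊆ Iio A.ord → #X ≤ Cardinal.lift.{u+1} τ →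
      ∃ Z ∈ F, X ⊆ Z) : A ^ τ ≤ lams * μ ^ τ := by
  have hI : #(ULift.{u+1} τ.out) = Cardinal.lift.{u+1} τ := by
    rw [Cardinal.mk_uLift, Cardinal.mk_out]
  have hA : #(Iio A.ord) = Cardinal.lift.{u+1} A := by
    rw [Cardinal.mk_Iio_ordinal, Cardinal.card_ord]
  have hch : ∀ g : ULift.{u+1} τ.out → Iio A.ord, ∃ Z : F, ∀ i, (g i : Ordinal.{u}) ∈ Z.1 := by
    intro g
    obtain ⟨Z, hZ, hXZ⟩ := hcov (Set.range fun i => (g i : Ordinal.{u}))
      (by rintro _ ⟨i, rfl⟩; exact (g i).2)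
      (Cardinal.mk_range_le.trans hI.le)
    exact ⟨⟨Z, hZ⟩, fun i => hXZ ⟨i, rfl⟩⟩
  choose Z hZ using hch
  have hinj : Function.Injective (fun g : ULift.{u+1} τ.out → Iio A.ord =>
      (⟨Z g, fun i => ⟨(g i : Ordinal.{u}), hZ g i⟩⟩ :
        Σ Y : F, (ULift.{u+1} τ.out → Y.1))) := by
    have hrec : ∀ (s : Σ Y : F, (ULift.{u+1} τ.out → Y.1)) (g : ULift.{u+1} τ.out → Iio A.ord),
        (⟨Z g, fun i => ⟨(g i : Ordinal.{u}), hZ g i⟩⟩ :
          Σ Y : F, (ULift.{u+1} τ.out → Y.1)) = s → ∀ i, (g i : Ordinal.{u}) = (s.2 i : Ordinal.{u}) := by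
      rintro s g rfl i
      rfl
    intro g g' h
    funext i
    apply Subtype.ext
    rw [hrec _ g h i, hrec _ g' rfl i]
  have h1 := Cardinal.mk_le_of_injective hinj
  have h2 : #(Σ Y : F, (ULift.{u+1} τ.out → Y.1)) ≤
      Cardinal.lift.{u+1} lams * Cardinal.lift.{u+1} μ ^ Cardinal.lift.{u+1} τ := by
    rw [Cardinal.mk_sigma]
    calc Cardinal.sum (fun Y : F => #(ULift.{u+1} τ.out → Y.1))
        ≤ Cardinal.sum (fun _ : F => Cardinal.lift.{u+1} μ ^ Cardinal.lift.{u+1} τ) := by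
          refine Cardinal.sum_le_sum _ _ fun Y => ?_
          rw [← Cardinal.power_def, hI]
          exact Cardinal.power_le_power_right (hsm _ Y.2)
      _ = #F * Cardinal.lift.{u+1} μ ^ Cardinal.lift.{u+1} τ := by
          rw [Cardinal.sum_const']
      _ ≤ _ := mul_le_mul' hF le_rfl
  rw [← Cardinal.power_def, hA, hI] at h1
  refine Cardinal.lift_le.{u+1}.1 ?_
  rw [Cardinal.lift_mul, Cardinal.lift_power, Cardinal.lift_power]
  exact h1.trans h2

end Helper55.AR
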