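import Pool.Agent.Helper55.AR.Defs

/-! The number of traces of good sets. -/

set_option autoImplicit false

open Cardinal Ordinal Set Filter Helper23.Pcf Helper55.CP

universe u

namespace Helper55.AR

/-- C -/
theorem mk_good_le {T : Sys.{u}} {e e' : Ordinal.{u} → Ordinal.{u} → Ordinal.{u}}
    {lams : Cardinal.{u}} (hl : ∀ q, T.lam q ≤ lams) (hμ : T.μ ≤ lams) (o : Ordinal.{u})
    (hu : ∀ M M', Good T e e' M → Good T e e' M' →
      (∀ i, chi M (T.c i).ord = chi M' (T.c i).ord) → M ∩ Iio o = M' ∩ Iio o) :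
    #{Z | ∃ M, Good T e e' M ∧ Z = M ∩ Iio o} ≤ Cardinal.lift.{u+1} lams := by
  classical
  have h0 : ℵ₀ ≤ lams := T.hν0.le.trans
    (((Order.le_succ _).trans (Order.le_succ _)).trans (T.hνμ.trans hμ))
  have hch : ∀ Z : {Z | ∃ M, Good T e e' M ∧ Z = M ∩ Iio o},
      ∃ s : Finset (T.Q × Set.Iio lams.ord), ∃ M, Good T e e' M ∧ Z.1 = M ∩ Iio o ∧
        (∀ i, ∀ x ∈ s, T.f x.1 x.2.1 i ≤ chi M (T.c i).ord) ∧
        ∀ i, ∃ x ∈ s, chi M (T.c i).ord = T.f x.1 x.2.1 i := by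
    rintro ⟨Z, M, hM, hZ⟩
    obtain ⟨t, δ, h1, h2, h3⟩ := hM.fin
    refine ⟨t.image fun q => (q, ⟨δ q, (h1 q).trans_le (Cardinal.ord_le_ord.2 (hl q))⟩), M, hM,
      hZ, ?_, ?_⟩
    · intro i x hx
      obtain ⟨q, hq, rfl⟩ := Finset.mem_image.1 hx
      exact h2 i q hq
    · intro i
      obtain ⟨q, hq, hq'⟩ := h3 i
      exact ⟨_, Finset.mem_image_of_mem _ hq, hq'⟩
  choose s M hM hZ h2 h3 using hch
  have hinj : Function.Injective s := by
    intro Z Z' h
    apply Subtype.ext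
    rw [hZ Z, hZ Z']
    refine hu _ _ (hM Z) (hM Z') fun i => le_antisymm ?_ ?_
    · obtain ⟨x, hx, hx'⟩ := h3 Z i
      rw [hx']
      exact h2 Z' i x (h ▸ hx)
    · obtain ⟨x, hx, hx'⟩ := h3 Z' i
      rw [hx']
      exact h2 Z i x (h ▸ hx)
  refine (Cardinal.mk_le_of_injective hinj).trans ?_
  have hfin : #(Finset (T.Q × Set.Iio lams.ord)) ≤ #(List (T.Q × Set.Iio lams.ord)) := by
    refine Cardinal.mk_le_of_injective (f := Finset.toList) fun a b hab => ?_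
    have := congrArg List.toFinset hab
    simpa using this
  refine hfin.trans ((Cardinal.mk_list_le_max _).trans (max_le ?_ ?_))
  · rw [← Cardinal.lift_aleph0.{u+1, u}]
    exact Cardinal.lift_le.2 h0
  · rw [Cardinal.mk_prod, Cardinal.mk_Iio_ordinal, Cardinal.card_ord, Cardinal.lift_lift]
    have h4 : Cardinal.lift.{u+1} #T.Q ≤ Cardinal.lift.{u+1} lams :=
      Cardinal.lift_le.2 (T.hQ.trans hμ)
    have h5 : ℵ₀ ≤ Cardinal.lift.{u+1} lams := by
      rw [← Cardinal.lift_aleph0.{u+1, u}]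
      exact Cardinal.lift_le.2 h0
    refine (mul_le_mul' h4 ?_).trans (Cardinal.mul_eq_self h5).le
    exact le_rfl

end Helper55.AR
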